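import Pool.Agent.W169.HF.Defs

set_option autoImplicit false

open Complex MeasureTheory Filter Topology Set

namespace Pool.Agent.W346.HF

open Pool.Agent.W169.HF

lemma gamma_half (k : ℕ) : Real.Gamma ((k : ℝ) + 1 / 2) =
    Real.sqrt Real.pi * ((2 * k).factorial : ℝ) / (4 ^ k * (k.factorial : ℝ)) := by
  induction k with
  | zero =>
    have : ((0 : ℕ) : ℝ) + 1 / 2 = 1 / 2 := by norm_num
    rw [this, Real.Gamma_one_half_eq]
    norm_num
  | succ k ih =>
    have h1 : ((k + 1 : ℕ) : ℝ) + 1 / 2 = ((k : ℝ) + 1 / 2) + 1 := by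
      push_cast
      ring
    rw [h1, Real.Gamma_add_one (by positivity), ih]
    have h2 : ((2 * (k + 1)).factorial : ℝ) = (2 * k + 2) * ((2 * k + 1) * (2 * k).factorial) := by
      have : (2 * (k + 1)).factorial = (2 * k + 2) * ((2 * k + 1) * (2 * k).factorial) := by
        have h3 : 2 * (k + 1) = (2 * k + 1) + 1 := by ring
        rw [h3, Nat.factorial_succ, Nat.factorial_succ]
      rw [this]
      push_cast
      ring
    have h3 : ((k + 1).factorial : ℝ) = (k + 1) * k.factorial := by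
      rw [Nat.factorial_succ]
      push_cast
      ring
    rw [h2, h3, pow_succ]
    have h4 : (k.factorial : ℝ) ≠ 0 := by positivity
    field_simp
    ring

lemma int_even (k : ℕ) : Integrable (fun v : ℝ => Real.exp (-v ^ 2) * v ^ (2 * k)) := by
  have h1 := integrable_rpow_mul_exp_neg_mul_sq (b := 1) one_pos (s := ((2 * k : ℕ) : ℝ))
    (by have : (0 : ℝ) ≤ ((2 * k : ℕ) : ℝ) := Nat.cast_nonneg _
        linarith)
  refine h1.congr (Eventually.of_forall fun v => ?_)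
  simp only
  rw [Real.rpow_natCast]
  ring_nf

lemma moment (k : ℕ) : ∫ v : ℝ, Real.exp (-v ^ 2) * v ^ (2 * k) =
    Real.sqrt Real.pi * ((2 * k).factorial : ℝ) / (4 ^ k * (k.factorial : ℝ)) := by
  rw [← gamma_half]
  have h1 : (fun v : ℝ => Real.exp (-v ^ 2) * v ^ (2 * k)) =
      fun v : ℝ => (fun x : ℝ => Real.exp (-x ^ 2) * x ^ (2 * k)) |v| := by
    funext v
    simp only
    rw [sq_abs, pow_mul, pow_mul, sq_abs]
  rw [h1, integral_comp_abs (f := fun x : ℝ => Real.exp (-x ^ 2) * x ^ (2 * k))]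
  have h2 := _root_.integral_rpow_mul_exp_neg_rpow (p := 2) (q := ((2 * k : ℕ) : ℝ)) (by norm_num)
    (by have : (0 : ℝ) ≤ ((2 * k : ℕ) : ℝ) := Nat.cast_nonneg _
        linarith)
  have h3 : ∫ x in Ioi (0 : ℝ), Real.exp (-x ^ 2) * x ^ (2 * k) =
      ∫ x in Ioi (0 : ℝ), x ^ (((2 * k : ℕ) : ℝ)) * Real.exp (-x ^ (2 : ℝ)) := by
    refine setIntegral_congr_fun measurableSet_Ioi fun x hx => ?_
    show Real.exp (-x ^ 2) * x ^ (2 * k) = x ^ (((2 * k : ℕ) : ℝ)) * Real.exp (-x ^ (2 : ℝ))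
    rw [Real.rpow_natCast, Real.rpow_two]
    ring
  rw [h3, h2]
  have h4 : (((2 * k : ℕ) : ℝ) + 1) / 2 = (k : ℝ) + 1 / 2 := by
    push_cast
    ring
  rw [h4]
  ring

lemma even_taylor (f : ℂ → ℂ) (hf : Differentiable ℂ f) (s w : ℂ) :
    HasSum (fun k : ℕ => (((2 * k).factorial : ℂ))⁻¹ * w ^ (2 * k) * iteratedDeriv (2 * k) f s)
      ((f (s + w) + f (s - w)) / 2) := by
  have h1 := Complex.hasSum_taylorSeries_of_entire hf s (s + w)
  have h2 := Complex.hasSum_taylorSeries_of_entire hf s (s - w)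
  have h3 := (h1.add h2).div_const 2
  have hinj : Function.Injective fun k : ℕ => 2 * k := fun a b h => by
    simp only at h
    omega
  have h4 := (hinj.hasSum_iff (f := fun n : ℕ => ((((n.factorial : ℂ))⁻¹ • (s + w - s) ^ n •
      iteratedDeriv n f s) + (((n.factorial : ℂ))⁻¹ • (s - w - s) ^ n •
      iteratedDeriv n f s)) / 2) (a := (f (s + w) + f (s - w)) / 2) (by
      intro n hn
      have hodd : Odd n := by
        rw [← Nat.not_even_iff_odd]
        rintro ⟨m, hm⟩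
        exact hn ⟨m, by simp only; omega⟩
      have h5 : s + w - s = w := by ring
      have h6 : s - w - s = -w := by ring
      rw [h5, h6, hodd.neg_pow]
      simp)).2 h3
  have h5 : (fun k : ℕ => (((2 * k).factorial : ℂ))⁻¹ * w ^ (2 * k) *
      iteratedDeriv (2 * k) f s) = ((fun n : ℕ => ((((n.factorial : ℂ))⁻¹ • (s + w - s) ^ n •
      iteratedDeriv n f s) + (((n.factorial : ℂ))⁻¹ • (s - w - s) ^ n •
      iteratedDeriv n f s)) / 2) ∘ fun k : ℕ => 2 * k) := by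
    funext k
    have h5 : s + w - s = w := by ring
    have h6 : s - w - s = -w := by ring
    simp only [Function.comp_apply, smul_eq_mul]
    rw [h5, h6, (even_two_mul k).neg_pow]
    ring
  rw [h5]
  exact h4

lemma int_shift (f : ℂ → ℂ) (hf : Slow f) (c : ℝ) (s : ℂ) :
    Integrable (fun v : ℝ => ((Real.exp (-v ^ 2) : ℝ) : ℂ) * f (s + ((c * v : ℝ) : ℂ))) := by
  set δ : ℝ := 1 / (4 * (c ^ 2 + 1)) with hδ
  have hδ0 : 0 < δ := by positivity
  obtain ⟨K, hK, hb⟩ := hf.2 δ hδ0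
  have hint : Integrable (fun v : ℝ => K * Real.exp (2 * δ * ‖s‖ ^ 2) *
      Real.exp (-(1 / 2) * v ^ 2)) := (integrable_exp_neg_mul_sq (by norm_num)).const_mul _
  refine hint.mono' ?_ (Eventually.of_forall fun v => ?_)
  · refine Continuous.aestronglyMeasurable ?_
    have h1 := hf.1.continuous
    fun_prop
  · rw [norm_mul, Complex.norm_real, Real.norm_of_nonneg (Real.exp_pos _).le]
    have h1 : ‖s + ((c * v : ℝ) : ℂ)‖ ^ 2 ≤ 2 * ‖s‖ ^ 2 + 2 * (c ^ 2 * v ^ 2) := by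
      have h2 := norm_add_le s ((c * v : ℝ) : ℂ)
      rw [Complex.norm_real, Real.norm_eq_abs] at h2
      have h3 : |c * v| ^ 2 = c ^ 2 * v ^ 2 := by rw [sq_abs]; ring
      have h4 := norm_nonneg (s + ((c * v : ℝ) : ℂ))
      nlinarith [sq_nonneg (‖s‖ - |c * v|)]
    have h2 : δ * ‖s + ((c * v : ℝ) : ℂ)‖ ^ 2 ≤ 2 * δ * ‖s‖ ^ 2 + 1 / 2 * v ^ 2 := by
      have h3 := mul_le_mul_of_nonneg_left h1 hδ0.le
      have h4 : δ * (2 * (c ^ 2 * v ^ 2)) ≤ 1 / 2 * v ^ 2 := by
        have h5 : δ * (2 * (c ^ 2 * v ^ 2)) = (c ^ 2 / (c ^ 2 + 1)) * (1 / 2 * v ^ 2) := by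
          rw [hδ]
          field_simp
          ring
        rw [h5]
        have h6 : c ^ 2 / (c ^ 2 + 1) ≤ 1 := by
          rw [div_le_one (by positivity)]
          linarith
        exact mul_le_of_le_one_left (by positivity) h6
      nlinarith
    calc Real.exp (-v ^ 2) * ‖f (s + ((c * v : ℝ) : ℂ))‖
        ≤ Real.exp (-v ^ 2) * (K * Real.exp (2 * δ * ‖s‖ ^ 2 + 1 / 2 * v ^ 2)) := by
          refine mul_le_mul_of_nonneg_left ?_ (Real.exp_pos _).le
          exact (hb _).trans (mul_le_mul_of_nonneg_left (Real.exp_le_exp.2 h2) hK.le)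
      _ = K * Real.exp (2 * δ * ‖s‖ ^ 2) * Real.exp (-(1 / 2) * v ^ 2) := by
          have h3 : Real.exp (-(1 / 2) * v ^ 2) = Real.exp (-v ^ 2) * Real.exp (1 / 2 * v ^ 2) := by
            rw [← Real.exp_add]
            congr 1
            ring
          rw [Real.exp_add, h3]
          ring

theorem heat_of (h : S_DER) : S_HEAT := by
  intro f hf t ht
  funext s
  set c : ℝ := 2 * Real.sqrt t with hc
  have hc2 : c ^ 2 = 4 * t := by
    rw [hc, mul_pow, Real.sq_sqrt ht]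
    norm_num
  have hpi : 0 < Real.sqrt Real.pi := Real.sqrt_pos.2 Real.pi_pos
  -- symmetrise
  have hI1 := int_shift f hf c s
  have hI2 := int_shift f hf (-c) s
  have hsym : ∫ v : ℝ, ((Real.exp (-v ^ 2) : ℝ) : ℂ) * f (s + ((c * v : ℝ) : ℂ)) =
      ∫ v : ℝ, ((Real.exp (-v ^ 2) : ℝ) : ℂ) *
        ((f (s + ((c * v : ℝ) : ℂ)) + f (s - ((c * v : ℝ) : ℂ))) / 2) := by
    have h1 : ∫ v : ℝ, ((Real.exp (-v ^ 2) : ℝ) : ℂ) * f (s + (((-c) * v : ℝ) : ℂ)) =
        ∫ v : ℝ, ((Real.exp (-v ^ 2) : ℝ) : ℂ) * f (s + ((c * v : ℝ) : ℂ)) := by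
      rw [← integral_neg_eq_self]
      refine integral_congr_ae (Eventually.of_forall fun v => ?_)
      simp only
      rw [neg_sq, neg_mul_neg]
    have h2 : (fun v : ℝ => ((Real.exp (-v ^ 2) : ℝ) : ℂ) *
        ((f (s + ((c * v : ℝ) : ℂ)) + f (s - ((c * v : ℝ) : ℂ))) / 2)) =
        fun v : ℝ => (((Real.exp (-v ^ 2) : ℝ) : ℂ) * f (s + ((c * v : ℝ) : ℂ)) +
          ((Real.exp (-v ^ 2) : ℝ) : ℂ) * f (s + (((-c) * v : ℝ) : ℂ))) / 2 := by
      funext v
      have h3 : s + (((-c) * v : ℝ) : ℂ) = s - ((c * v : ℝ) : ℂ) := by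
        push_cast
        ring
      rw [h3]
      ring
    rw [h2, integral_div, integral_add hI1 hI2, h1]
    ring
  -- the terms
  set G : ℕ → ℝ → ℂ := fun k v => ((((2 * k).factorial : ℂ))⁻¹ * (c : ℂ) ^ (2 * k) *
    iteratedDeriv (2 * k) f s) * ((Real.exp (-v ^ 2) * v ^ (2 * k) : ℝ) : ℂ) with hG
  have hGint : ∀ k, Integrable (G k) := fun k => (int_even k).ofReal.const_mul _
  have hGsum : ∀ v : ℝ, ∑' k, G k v = ((Real.exp (-v ^ 2) : ℝ) : ℂ) *
        ((f (s + ((c * v : ℝ) : ℂ)) + f (s - ((c * v : ℝ) : ℂ))) / 2) := by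
    intro v
    have h1 := (even_taylor f hf.1 s ((c * v : ℝ) : ℂ)).mul_left ((Real.exp (-v ^ 2) : ℝ) : ℂ)
    rw [← h1.tsum_eq]
    refine tsum_congr fun k => ?_
    rw [hG]
    simp only
    push_cast
    rw [mul_pow]
    ring
  have hval : ∀ k, ∫ v, G k v = (Real.sqrt Real.pi : ℂ) *
      (((t ^ k / (k.factorial : ℝ) : ℝ) : ℂ) * iteratedDeriv (2 * k) f s) := by
    intro k
    rw [hG]
    simp only
    rw [integral_const_mul, integral_complex_ofReal, moment]
    have h1 : (c : ℂ) ^ (2 * k) = ((4 ^ k * t ^ k : ℝ) : ℂ) := by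
      rw [← Complex.ofReal_pow, pow_mul, hc2, mul_pow]
    rw [h1]
    have h2 : ((2 * k).factorial : ℂ) ≠ 0 := by
      exact_mod_cast Nat.factorial_ne_zero _
    have h3 : (k.factorial : ℂ) ≠ 0 := by
      exact_mod_cast Nat.factorial_ne_zero _
    push_cast
    field_simp
  have hnorm : ∀ k, ∫ v, ‖G k v‖ = Real.sqrt Real.pi *
      (t ^ k / (k.factorial : ℝ) * ‖iteratedDeriv (2 * k) f s‖) := by
    intro k
    rw [hG]
    simp only
    have h1 : (fun v : ℝ => ‖((((2 * k).factorial : ℂ))⁻¹ * (c : ℂ) ^ (2 * k) *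
        iteratedDeriv (2 * k) f s) * ((Real.exp (-v ^ 2) * v ^ (2 * k) : ℝ) : ℂ)‖) =
        fun v : ℝ => ‖((((2 * k).factorial : ℂ))⁻¹ * (c : ℂ) ^ (2 * k) *
        iteratedDeriv (2 * k) f s)‖ * (Real.exp (-v ^ 2) * v ^ (2 * k)) := by
      funext v
      rw [norm_mul, Complex.norm_real, Real.norm_of_nonneg]
      rw [pow_mul]
      positivity
    rw [h1, integral_const_mul, moment, norm_mul, norm_mul]
    have h2 : ‖(c : ℂ) ^ (2 * k)‖ = 4 ^ k * t ^ k := by
      rw [← Complex.ofReal_pow, Complex.norm_real, pow_mul, hc2, mul_pow,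
        Real.norm_of_nonneg (by positivity)]
    have h3 : ‖(((2 * k).factorial : ℂ))⁻¹‖ = (((2 * k).factorial : ℝ))⁻¹ := by
      rw [norm_inv, Complex.norm_natCast]
    rw [h2, h3]
    have h4 : ((2 * k).factorial : ℝ) ≠ 0 := by positivity
    have h5 : (k.factorial : ℝ) ≠ 0 := by positivity
    field_simp
  have hsumm : Summable fun k => ∫ v, ‖G k v‖ := by
    set δ : ℝ := 1 / (60 * (t + 1)) with hδ
    have hδ0 : 0 < δ := by positivity
    obtain ⟨K, hK, hb⟩ := h f hf δ hδ0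
    have hgeo : Summable fun k : ℕ => (Real.sqrt Real.pi * (K * Real.exp (2 * δ * ‖s‖ ^ 2))) *
        (1 / 2 : ℝ) ^ k := (summable_geometric_of_lt_one (by norm_num) (by norm_num)).mul_left _
    refine Summable.of_nonneg_of_le (fun k => integral_nonneg fun v => norm_nonneg _)
      (fun k => ?_) hgeo
    rw [hnorm]
    have h1 := hb k s
    have h2 : t ^ k / (k.factorial : ℝ) * ‖iteratedDeriv (2 * k) f s‖ ≤
        t ^ k / (k.factorial : ℝ) *
          (K * (k.factorial : ℝ) * (30 * δ) ^ k * Real.exp (2 * δ * ‖s‖ ^ 2)) :=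
      mul_le_mul_of_nonneg_left h1 (by positivity)
    have h3 : t ^ k / (k.factorial : ℝ) *
          (K * (k.factorial : ℝ) * (30 * δ) ^ k * Real.exp (2 * δ * ‖s‖ ^ 2)) =
        K * Real.exp (2 * δ * ‖s‖ ^ 2) * (t * (30 * δ)) ^ k := by
      have h5 : (k.factorial : ℝ) ≠ 0 := by positivity
      rw [mul_pow t (30 * δ) k]
      generalize (30 * δ) ^ k = q
      field_simp
    have h4 : (t * (30 * δ)) ^ k ≤ (1 / 2 : ℝ) ^ k := by
      refine pow_le_pow_left₀ (by positivity) ?_ k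
      rw [hδ]
      have : t * (30 * (1 / (60 * (t + 1)))) = (t / (t + 1)) * (1 / 2) := by
        have h7 : t + 1 ≠ 0 := by positivity
        field_simp
        ring
      rw [this]
      have h6 : t / (t + 1) ≤ 1 := by
        rw [div_le_one (by positivity)]
        linarith
      exact mul_le_of_le_one_left (by norm_num) h6
    rw [mul_assoc]
    refine mul_le_mul_of_nonneg_left ?_ hpi.le
    calc t ^ k / (k.factorial : ℝ) * ‖iteratedDeriv (2 * k) f s‖
        ≤ K * Real.exp (2 * δ * ‖s‖ ^ 2) * (t * (30 * δ)) ^ k := by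
          rw [← h3]
          exact h2
      _ ≤ K * Real.exp (2 * δ * ‖s‖ ^ 2) * (1 / 2) ^ k :=
          mul_le_mul_of_nonneg_left h4 (by positivity)
  have hfin := hasSum_integral_of_summable_integral_norm hGint hsumm
  have h1 : ∫ v : ℝ, ((Real.exp (-v ^ 2) : ℝ) : ℂ) * f (s + ((c * v : ℝ) : ℂ)) =
      (Real.sqrt Real.pi : ℂ) * hs t f s := by
    rw [hsym]
    have h2 : (fun v : ℝ => ((Real.exp (-v ^ 2) : ℝ) : ℂ) *
        ((f (s + ((c * v : ℝ) : ℂ)) + f (s - ((c * v : ℝ) : ℂ))) / 2)) =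
        fun v => ∑' k, G k v := funext fun v => (hGsum v).symm
    rw [h2, ← hfin.tsum_eq]
    unfold hs
    rw [← tsum_mul_left]
    exact tsum_congr fun k => hval k
  unfold heat
  rw [← hc, h1, ← mul_assoc]
  have h3 : ((1 / Real.sqrt Real.pi : ℝ) : ℂ) * (Real.sqrt Real.pi : ℂ) = 1 := by
    rw [← Complex.ofReal_mul, one_div, inv_mul_cancel₀ hpi.ne', Complex.ofReal_one]
  rw [h3, one_mul]

end Pool.Agent.W346.HF
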